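import Pool.Agent.Lib.MP_5f8612_pr.Main

open Pool.Agent.Lib.MP_5f8612_pr

/-- Above the connectivity threshold, a uniform spanning tree of `G(nk, p)` conditioned on
connectivity is `k`-splittable with at least inverse polynomial probability. -/
theorem Pool.Agent.Results.MP_5f8612_pr.Splittable.result :
    ∀ k : ℕ, 2 ≤ k → ∀ ε : ℝ, 0 < ε → ∃ C c : ℝ, 0 < C ∧ 0 < c ∧ ∃ n₀ : ℕ, ∀ n : ℕ, n₀ ≤ n →
      ∀ p : ℝ, (1 + ε) * Real.log (n * k : ℕ) / (n * k : ℕ) ≤ p → p ≤ 1 →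
        C * (n : ℝ) ^ (-c) ≤ splitProb k n p :=
  main
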